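import Pool.Agent.H15_OneLoop.Main
import Pool.Agent.H15_OneLoop.Plain

/-!
# The 1-loop conjecture for one-cusped hyperbolic 3-manifolds

For each oriented ideal triangulation with one cusp, each solution `z` of the edge and completeness
equations with positive imaginary parts, each closed peripheral curve `θ` in normal position which
is not null-homologous in the cusp torus, each combinatorial flattening `f` and each row `r`, the
adjoint Reidemeister torsion with respect to `θ` is defined, and all its values are equal to the
1-loop invariant up to sign.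
-/

set_option autoImplicit false

namespace Pool.Agent.Results.MP_2c5f89_gt.OneLoop

open Pool.Agent.H15_OneLoop

theorem result {N : ℕ} (T : IdealTriangulation N) (S : CompleteShapes T)
    (θ : NormalCurve T.toGluing) (hθ : ¬ θ.NullHomologous) (f : Fin 3 → Fin N → ℤ)
    (hf : IsFlattening T f) (r : Fin N) :
    (∃ τ, IsPortiTorsion T S.z θ τ) ∧
      ∀ τ, IsPortiTorsion T S.z θ τ →
        τ = oneLoop T S.z θ f r ∨ τ = -oneLoop T S.z θ f r := by
  obtain ⟨⟨τ, hτ⟩, h⟩ := statement T S θ hθ f hf r
  exact ⟨⟨τ, (portiTorsion_iff T S.z θ τ).2 hτ⟩,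
    fun τ hτ => h τ ((portiTorsion_iff T S.z θ τ).1 hτ)⟩

end Pool.Agent.Results.MP_2c5f89_gt.OneLoop
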